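import Mathlib

/-! # Dual commuting derivations of a transcendence basis -/

set_option autoImplicit false

namespace Pool.Agent.TH554.N4

open scoped TensorProduct

section ext
variable {A FF : Type} [CommRing A] [Field FF] [Algebra ℂ A] [Algebra ℂ FF] [Algebra A FF]
  [IsScalarTower ℂ A FF] [Algebra.FormallyEtale A FF]

theorem ext_der (d : Derivation ℂ A FF) :
    ∃ D : Derivation ℂ FF FF, ∀ a, D (algebraMap A FF a) = d a := by
  let e := KaehlerDifferential.tensorKaehlerEquivOfFormallyEtale ℂ A FF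
  let l : (Ω[FF⁄ℂ]) →ₗ[FF] FF := (LinearMap.liftBaseChange FF d.liftKaehlerDifferential) ∘ₗ
    e.symm.toLinearMap
  refine ⟨l.compDer (KaehlerDifferential.D ℂ FF), fun a => ?_⟩
  have h1 : e.symm (KaehlerDifferential.D ℂ FF (algebraMap A FF a)) =
      1 ⊗ₜ KaehlerDifferential.D ℂ A a :=
    KaehlerDifferential.tensorKaehlerEquivOfFormallyEtale_symm_D_algebraMap ℂ A FF a
  change LinearMap.liftBaseChange FF d.liftKaehlerDifferential
    (e.symm (KaehlerDifferential.D ℂ FF (algebraMap A FF a))) = d a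
  rw [h1, LinearMap.liftBaseChange_tmul, one_smul, Derivation.liftKaehlerDifferential_comp_D]

theorem uniq_der (D : Derivation ℂ FF FF) (h : ∀ a, D (algebraMap A FF a) = 0) : D = 0 := by
  let e := KaehlerDifferential.tensorKaehlerEquivOfFormallyEtale ℂ A FF
  have h1 : D.liftKaehlerDifferential ∘ₗ e.toLinearMap = 0 := by
    apply TensorProduct.AlgebraTensorModule.ext
    intro t w
    have h2 : w ∈ Submodule.span A (Set.range (KaehlerDifferential.D ℂ A)) := by
      rw [KaehlerDifferential.span_range_derivation]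
      trivial
    induction h2 using Submodule.span_induction with
    | mem x hx =>
      obtain ⟨s, rfl⟩ := hx
      change D.liftKaehlerDifferential (e (t ⊗ₜ KaehlerDifferential.D ℂ A s)) = 0
      have h3 : e (t ⊗ₜ KaehlerDifferential.D ℂ A s) =
          t • KaehlerDifferential.D ℂ FF (algebraMap A FF s) := by
        change KaehlerDifferential.mapBaseChange ℂ A FF (t ⊗ₜ KaehlerDifferential.D ℂ A s) = _
        rw [KaehlerDifferential.mapBaseChange_tmul, KaehlerDifferential.map_D]
      rw [h3, map_smul, Derivation.liftKaehlerDifferential_comp_D, h, smul_zero]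
    | zero => rw [TensorProduct.tmul_zero, map_zero, map_zero]
    | add x y _ _ hx hy =>
      rw [TensorProduct.tmul_add, map_add, map_add, hx, hy]
    | smul a x _ hx =>
      rw [← TensorProduct.smul_tmul]
      rw [← TensorProduct.smul_tmul']
      rw [← algebraMap_smul FF a (t ⊗ₜ[A] x), map_smul, hx, LinearMap.zero_apply,
        LinearMap.zero_apply, smul_zero]
  ext z
  obtain ⟨u, hu⟩ := e.surjective (KaehlerDifferential.D ℂ FF z)
  have h2 := LinearMap.congr_fun h1 u
  change D.liftKaehlerDifferential (e u) = 0 at h2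
  rw [hu, Derivation.liftKaehlerDifferential_comp_D] at h2
  exact h2

end ext

theorem exists_der {FF : Type} [Field FF] [Algebra ℂ FF] (g y : FF)
    (hind : AlgebraicIndependent ℂ ![g, y])
    (halg : ∀ z : FF, IsAlgebraic (IntermediateField.adjoin ℂ {g, y}) z) :
    ∃ D1 D2 : Derivation ℂ FF FF, D1 g = 1 ∧ D1 y = 0 ∧ D2 g = 0 ∧ D2 y = 1 ∧
      ∀ z, D1 (D2 z) = D2 (D1 z) := by
  have hrange : Set.range ![g, y] = {g, y} := by
    ext z
    simp only [Set.mem_range, Fin.exists_fin_two, Set.mem_insert_iff, Set.mem_singleton_iff,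
      Matrix.cons_val_zero, Matrix.cons_val_one, eq_comm]
  let : Algebra (MvPolynomial (Fin 2) ℂ) FF := (MvPolynomial.aeval ![g, y]).toAlgebra
  have hmap : ∀ a : MvPolynomial (Fin 2) ℂ, algebraMap (MvPolynomial (Fin 2) ℂ) FF a =
      MvPolynomial.aeval ![g, y] a := fun a => rfl
  have : IsScalarTower ℂ (MvPolynomial (Fin 2) ℂ) FF :=
    IsScalarTower.of_algebraMap_eq fun c => by
      rw [hmap, MvPolynomial.algebraMap_eq, MvPolynomial.aeval_C]
  let k := IntermediateField.adjoin ℂ (Set.range ![g, y])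
  let : Algebra (MvPolynomial (Fin 2) ℂ) k :=
    ((hind.aevalEquivField : FractionRing (MvPolynomial (Fin 2) ℂ) →+* k).comp
      (algebraMap _ (FractionRing (MvPolynomial (Fin 2) ℂ)))).toAlgebra
  have : IsScalarTower (MvPolynomial (Fin 2) ℂ) k FF :=
    IsScalarTower.of_algebraMap_eq fun c => by
      rw [hmap, ← hind.aevalEquivField_algebraMap_apply_coe]
      rfl
  have : Algebra.FormallyEtale (MvPolynomial (Fin 2) ℂ) k := by
    have e : FractionRing (MvPolynomial (Fin 2) ℂ) ≃ₐ[MvPolynomial (Fin 2) ℂ] k :=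
      AlgEquiv.ofRingEquiv (f := hind.aevalEquivField.toRingEquiv) fun a => rfl
    have : Algebra.FormallyEtale (MvPolynomial (Fin 2) ℂ)
        (FractionRing (MvPolynomial (Fin 2) ℂ)) :=
      Algebra.FormallyEtale.of_isLocalization (nonZeroDivisors (MvPolynomial (Fin 2) ℂ))
    exact Algebra.FormallyEtale.of_equiv e
  have : Algebra.IsAlgebraic k FF := by
    constructor
    intro z
    have h1 := halg z
    change IsAlgebraic (IntermediateField.adjoin ℂ (Set.range ![g, y])) z
    rw [hrange]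
    exact h1
  have : Algebra.IsSeparable k FF := inferInstance
  have : Algebra.FormallyEtale k FF := Algebra.FormallyEtale.of_isSeparable k FF
  have : Algebra.FormallyEtale (MvPolynomial (Fin 2) ℂ) FF :=
    Algebra.FormallyEtale.comp (MvPolynomial (Fin 2) ℂ) k FF
  obtain ⟨D1, hD1⟩ := ext_der (A := MvPolynomial (Fin 2) ℂ)
    (MvPolynomial.mkDerivation ℂ (![1, 0] : Fin 2 → FF))
  obtain ⟨D2, hD2⟩ := ext_der (A := MvPolynomial (Fin 2) ℂ)
    (MvPolynomial.mkDerivation ℂ (![0, 1] : Fin 2 → FF))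
  have hg : algebraMap (MvPolynomial (Fin 2) ℂ) FF (MvPolynomial.X 0) = g := by
    rw [hmap, MvPolynomial.aeval_X]; rfl
  have hy : algebraMap (MvPolynomial (Fin 2) ℂ) FF (MvPolynomial.X 1) = y := by
    rw [hmap, MvPolynomial.aeval_X]; rfl
  have h1g : D1 g = 1 := by
    rw [← hg, hD1, MvPolynomial.mkDerivation_X]; rfl
  have h1y : D1 y = 0 := by
    rw [← hy, hD1, MvPolynomial.mkDerivation_X]; rfl
  have h2g : D2 g = 0 := by
    rw [← hg, hD2, MvPolynomial.mkDerivation_X]; rfl
  have h2y : D2 y = 1 := by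
    rw [← hy, hD2, MvPolynomial.mkDerivation_X]; rfl
  refine ⟨D1, D2, h1g, h1y, h2g, h2y, ?_⟩
  have hbr : ⁅D1, D2⁆ = 0 := by
    apply uniq_der (A := MvPolynomial (Fin 2) ℂ)
    intro a
    have h3 : (⁅D1, D2⁆ : Derivation ℂ FF FF).compAlgebraMap (MvPolynomial (Fin 2) ℂ) = 0 := by
      apply MvPolynomial.derivation_ext
      intro i
      rw [Derivation.zero_apply]
      change ⁅D1, D2⁆ (algebraMap (MvPolynomial (Fin 2) ℂ) FF (MvPolynomial.X i)) = 0
      rw [Derivation.commutator_apply]
      fin_cases i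
      · change D1 (D2 (algebraMap (MvPolynomial (Fin 2) ℂ) FF (MvPolynomial.X 0))) -
          D2 (D1 (algebraMap (MvPolynomial (Fin 2) ℂ) FF (MvPolynomial.X 0))) = 0
        rw [hg, h1g, h2g, map_zero, Derivation.map_one_eq_zero, sub_zero]
      · change D1 (D2 (algebraMap (MvPolynomial (Fin 2) ℂ) FF (MvPolynomial.X 1))) -
          D2 (D1 (algebraMap (MvPolynomial (Fin 2) ℂ) FF (MvPolynomial.X 1))) = 0
        rw [hy, h1y, h2y, map_zero, Derivation.map_one_eq_zero, sub_zero]
    have h4 := DFunLike.congr_fun h3 a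
    exact h4
  intro z
  have h5 := DFunLike.congr_fun hbr z
  rw [Derivation.commutator_apply, Derivation.zero_apply] at h5
  exact sub_eq_zero.mp h5

end Pool.Agent.TH554.N4
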